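import Mathlib

/-! # A set with fine chains has connected closure -/

set_option autoImplicit false

open Set Metric

namespace Q254.DC

theorem isConnected_closure_of_chain {ι : Type*} [Nonempty ι] (f : ι → ℂ)
    (hb : Bornology.IsBounded (range f))
    (hc : ∀ η : ℝ, 0 < η → ∀ i j : ι, Relation.ReflTransGen (fun a b => dist (f a) (f b) < η) i j) :
    IsConnected (closure (range f)) := by
  refine ⟨(range_nonempty f).closure, ?_⟩
  have hS : IsCompact (closure (range f)) := isCompact_of_isClosed_isBounded isClosed_closure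
    hb.closure
  rw [isPreconnected_closed_iff]
  intro t t' ht ht' hcov hne hne'
  by_contra hcon
  rw [Set.not_nonempty_iff_eq_empty] at hcon
  set S := closure (range f) with hSdef
  have hA : IsCompact (S ∩ t) := hS.inter_right ht
  have hB : IsClosed (S ∩ t') := isClosed_closure.inter ht'
  have hdisj : Disjoint (S ∩ t) (S ∩ t') := by
    rw [Set.disjoint_iff_inter_eq_empty]
    ext x
    constructor
    · rintro ⟨⟨h1, h2⟩, -, h3⟩
      have : x ∈ S ∩ (t ∩ t') := ⟨h1, h2, h3⟩
      rw [hcon] at this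
      exact this
    · intro h
      exact h.elim
  obtain ⟨r, hr0, hr⟩ := exists_pos_forall_lt_edist hA hB hdisj
  have hd : ∀ x ∈ S ∩ t, ∀ y ∈ S ∩ t', (r : ℝ) < dist x y := by
    intro x hx y hy
    have h := hr x hx y hy
    rw [edist_nndist] at h
    have h2 : r < nndist x y := by exact_mod_cast h
    rw [← coe_nndist]
    exact_mod_cast h2
  have hmem : ∀ i, f i ∈ S := fun i => subset_closure (mem_range_self i)
  have hAB : ∀ i, f i ∈ S ∩ t ∨ f i ∈ S ∩ t' := by
    intro i
    rcases hcov (hmem i) with h | h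
    · exact Or.inl ⟨hmem i, h⟩
    · exact Or.inr ⟨hmem i, h⟩
  obtain ⟨a, ha⟩ := hne
  obtain ⟨b, hb'⟩ := hne'
  have hr0' : (0 : ℝ) < r := by exact_mod_cast hr0
  obtain ⟨i, hi⟩ : ∃ i, f i ∈ S ∩ t := by
    obtain ⟨_, ⟨i, rfl⟩, hi⟩ := Metric.mem_closure_iff.1 ha.1 r hr0'
    rcases hAB i with h | h
    · exact ⟨i, h⟩
    · exact absurd (hd a ha _ h) (not_lt.2 hi.le)
  obtain ⟨j, hj⟩ : ∃ j, f j ∈ S ∩ t' := by
    obtain ⟨_, ⟨j, rfl⟩, hj⟩ := Metric.mem_closure_iff.1 hb'.1 r hr0'
    rcases hAB j with h | h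
    · refine absurd (hd _ h b hb') (not_lt.2 ?_)
      rw [dist_comm]
      exact hj.le
    · exact ⟨j, h⟩
  have key : ∀ k, Relation.ReflTransGen (fun a b => dist (f a) (f b) < r) i k → f k ∈ S ∩ t := by
    intro k hk
    induction hk with
    | refl => exact hi
    | tail _ hstep ih =>
      rename_i x y _
      rcases hAB y with h | h
      · exact h
      · exact absurd (hd _ ih _ h) (not_lt.2 hstep.le)
  have h1 := key j (hc r hr0' i j)
  exact (Set.disjoint_left.1 hdisj h1 hj)

end Q254.DC
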