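import Mathlib
import Pool.Agent.Q254.DC.Top

/-! # The divisor function `σ_c` with complex exponent, `Re c < -1` -/

set_option autoImplicit false

open Finset

namespace Q254.DC

/-- `σ_c(n) = ∑_{d ∣ n} d ^ c`. -/
noncomputable def sig (c : ℂ) (n : ℕ) : ℂ := ∑ d ∈ n.divisors, (d : ℂ) ^ c

lemma sig_one (c : ℂ) : sig c 1 = 1 := by simp [sig]

/-- the arithmetic function `n ↦ n ^ c` -/
noncomputable def pw (c : ℂ) : ArithmeticFunction ℂ := ⟨fun n => if n = 0 then 0 else (n : ℂ) ^ c, by simp⟩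

lemma pw_mult (c : ℂ) : (pw c).IsMultiplicative := by
  rw [ArithmeticFunction.IsMultiplicative.iff_ne_zero]
  refine ⟨by simp [pw], ?_⟩
  intro m n hm hn _
  simp only [pw, ArithmeticFunction.coe_mk, hm, hn, mul_eq_zero, or_self, if_false]
  rw [Nat.cast_mul, Complex.natCast_mul_natCast_cpow]

lemma sig_eq (c : ℂ) (n : ℕ) : sig c n = ((ArithmeticFunction.zeta : ArithmeticFunction ℂ) * pw c) n := by
  rw [ArithmeticFunction.coe_zeta_mul_apply]
  unfold sig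
  refine sum_congr rfl fun d hd => ?_
  have hd0 : d ≠ 0 := (Nat.pos_of_mem_divisors hd).ne'
  simp [pw, hd0]

lemma sig_mul (c : ℂ) {m n : ℕ} (h : m.Coprime n) : sig c (m * n) = sig c m * sig c n := by
  rw [sig_eq, sig_eq, sig_eq]
  exact (ArithmeticFunction.isMultiplicative_zeta.natCast.mul (pw_mult c)).map_mul_of_coprime h

lemma sig_prime_pow (c : ℂ) {p : ℕ} (hp : p.Prime) (a : ℕ) :
    sig c (p ^ a) = ∑ j ∈ range (a + 1), ((p : ℂ) ^ c) ^ j := by
  unfold sig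
  rw [Nat.divisors_prime_pow hp, sum_map]
  refine sum_congr rfl fun j hj => ?_
  clear hj
  simp only [Function.Embedding.coeFn_mk]
  rw [Nat.cast_pow]
  induction j with
  | zero => simp
  | succ j ih =>
    rw [pow_succ, pow_succ, ← Nat.cast_pow, Complex.natCast_mul_natCast_cpow, Nat.cast_pow, ih]

lemma norm_natCast_cpow' (c : ℂ) (n : ℕ) (hn : 0 < n) : ‖(n : ℂ) ^ c‖ = (n : ℝ) ^ c.re :=
  Complex.norm_natCast_cpow_of_pos hn c

/-- the bound for `σ_c` -/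
noncomputable def Gam (c : ℂ) : ℝ := ∑' d : ℕ, (d : ℝ) ^ c.re

lemma summable_rpow_re {c : ℂ} (hc : c.re < -1) : Summable (fun d : ℕ => (d : ℝ) ^ c.re) :=
  Real.summable_nat_rpow.2 hc

lemma norm_sum_le_re (c : ℂ) (s : Finset ℕ) (hs : ∀ d ∈ s, 0 < d) :
    ‖∑ d ∈ s, (d : ℂ) ^ c‖ ≤ ∑ d ∈ s, (d : ℝ) ^ c.re := by
  refine (norm_sum_le _ _).trans (sum_le_sum fun d hd => ?_)
  rw [norm_natCast_cpow' c d (hs d hd)]

lemma norm_sig_le {c : ℂ} (hc : c.re < -1) (n : ℕ) : ‖sig c n‖ ≤ Gam c := by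
  refine (norm_sum_le_re c _ fun d hd => Nat.pos_of_mem_divisors hd).trans ?_
  exact (summable_rpow_re hc).sum_le_tsum _ fun d _ => by positivity

lemma Gam_nonneg (c : ℂ) : 0 ≤ Gam c := tsum_nonneg fun d => by positivity

lemma tail_small {c : ℂ} (hc : c.re < -1) (η : ℝ) (hη : 0 < η) :
    ∃ M : ℕ, ∀ n : ℕ, 0 < n → (∀ q : ℕ, q.Prime → q ∣ n → M < q) → ‖sig c n - 1‖ < η := by
  obtain ⟨s, hs⟩ := summable_iff_vanishing_norm.1 (summable_rpow_re hc) η hη
  refine ⟨s.sup id, fun n hn hq => ?_⟩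
  have h1 : sig c n - 1 = ∑ d ∈ n.divisors.erase 1, (d : ℂ) ^ c := by
    unfold sig
    rw [← add_sum_erase n.divisors (fun d : ℕ => (d : ℂ) ^ c) (Nat.one_mem_divisors.2 hn.ne')]
    simp
  rw [h1]
  refine (norm_sum_le_re c _ fun d hd => Nat.pos_of_mem_divisors (mem_of_mem_erase hd)).trans_lt ?_
  have h2 : Disjoint (n.divisors.erase 1) s := by
    rw [Finset.disjoint_left]
    intro d hd hds
    rw [mem_erase] at hd
    have hd1 : d ≠ 1 := hd.1
    have h3 := hq d.minFac (Nat.minFac_prime hd1) ((Nat.minFac_dvd d).trans (Nat.dvd_of_mem_divisors hd.2))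
    have h4 : d ≤ s.sup id := Finset.le_sup (f := id) hds
    have h5 : d.minFac ≤ d := Nat.minFac_le (Nat.pos_of_mem_divisors hd.2)
    omega
  have h3 := hs _ h2
  rwa [Real.norm_of_nonneg (sum_nonneg fun d _ => by positivity)] at h3

/-- The ratio of consecutive values at prime powers. -/
lemma ratio {c : ℂ} (hc : c.re < -1) {p : ℕ} (hp : p.Prime) (a : ℕ) :
    ∃ w : ℂ, ‖w‖ ≤ 3 / (2 * p) ∧ sig c (p ^ (a + 1)) = Complex.exp w * sig c (p ^ a) := by
  set x : ℂ := (p : ℂ) ^ c with hx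
  have hp0 : (0 : ℝ) < p := by exact_mod_cast hp.pos
  have hp2 : (2 : ℝ) ≤ p := by exact_mod_cast hp.two_le
  have hxp : ‖x‖ ≤ 1 / p := by
    rw [hx, norm_natCast_cpow' c p hp.pos, one_div, ← Real.rpow_neg_one]
    exact Real.rpow_le_rpow_of_exponent_le (by linarith) hc.le
  have hx2 : ‖x‖ ≤ 1 / 2 := hxp.trans (by gcongr)
  have hx0 : 0 ≤ ‖x‖ := norm_nonneg _
  set S : ℂ := ∑ j ∈ range (a + 1), x ^ j with hS
  have hSb : ‖x‖ ^ a ≤ ‖S‖ ∧ 0 < ‖S‖ := by
    rcases Nat.eq_zero_or_pos a with h0 | h0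
    · subst h0
      simp [hS]
    · have h1 : S * (x - 1) = x ^ (a + 1) - 1 := geom_sum_mul x (a + 1)
      have h2 : ‖S‖ * ‖x - 1‖ = ‖x ^ (a + 1) - 1‖ := by rw [← norm_mul, h1]
      have h3 : ‖x - 1‖ ≤ 3 / 2 := (norm_sub_le _ _).trans (by rw [norm_one]; linarith)
      have h4 : 1 - ‖x‖ ^ (a + 1) ≤ ‖x ^ (a + 1) - 1‖ := by
        have := norm_sub_norm_le (1 : ℂ) (x ^ (a + 1))
        rw [norm_one, norm_pow, norm_sub_rev] at this
        exact this
      have h5 : ‖x‖ ^ (a + 1) ≤ 1 / 4 := by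
        calc ‖x‖ ^ (a + 1) ≤ (1 / 2 : ℝ) ^ (a + 1) := by gcongr
          _ ≤ (1 / 2 : ℝ) ^ 2 := by
            apply pow_le_pow_of_le_one (by norm_num) (by norm_num); omega
          _ = 1 / 4 := by norm_num
      have h6 : ‖x‖ ^ a ≤ 1 / 2 := by
        calc ‖x‖ ^ a ≤ (1 / 2 : ℝ) ^ a := by gcongr
          _ ≤ (1 / 2 : ℝ) ^ 1 := by
            apply pow_le_pow_of_le_one (by norm_num) (by norm_num); omega
          _ = 1 / 2 := by norm_num
      have h7 : 1 / 2 ≤ ‖S‖ := by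
        by_contra hcon
        push Not at hcon
        have h8 : ‖S‖ * ‖x - 1‖ ≤ ‖S‖ * (3 / 2) := by gcongr
        nlinarith [norm_nonneg S]
      exact ⟨h6.trans h7, by linarith⟩
  have hS0 : S ≠ 0 := norm_pos_iff.1 hSb.2
  set z : ℂ := x ^ (a + 1) / S with hz
  have hzn : ‖z‖ ≤ ‖x‖ := by
    rw [hz, norm_div, norm_pow, div_le_iff₀ hSb.2, pow_succ, mul_comm]
    exact mul_le_mul_of_nonneg_left hSb.1 hx0
  have hz2 : ‖z‖ ≤ 1 / 2 := hzn.trans hx2
  have h1z : 1 + z ≠ 0 := by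
    intro h
    have : z = -1 := by linear_combination h
    rw [this, norm_neg, norm_one] at hz2
    norm_num at hz2
  refine ⟨Complex.log (1 + z), ?_, ?_⟩
  · refine (Complex.norm_log_one_add_half_le_self hz2).trans ?_
    calc 3 / 2 * ‖z‖ ≤ 3 / 2 * (1 / p) := by gcongr; exact hzn.trans hxp
      _ = 3 / (2 * p) := by field_simp
  · rw [Complex.exp_log h1z, sig_prime_pow c hp, sig_prime_pow c hp, ← hx, ← hS, sum_range_succ,
      ← hS, hz]
    field_simp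

end Q254.DC
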