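import Mathlib
import Pool.Agent.Q254.DC.Sig

/-! # From approximation of small multiplicative perturbations to connectedness -/

set_option autoImplicit false

open Finset

namespace Q254.DC

/-- every `exp w` with `|w| ≤ 3 / (2 p)` is a limit of values of `σ_c` at integers all of whose
prime factors exceed `p`, for every prime `p` -/
def Fill (c : ℂ) : Prop := ∀ p : ℕ, p.Prime → ∀ w : ℂ, ‖w‖ ≤ 3 / (2 * p) → ∀ η : ℝ, 0 < η →
  ∃ m : ℕ, 0 < m ∧ (∀ q : ℕ, q.Prime → q ∣ m → p < q) ∧ ‖sig c m - Complex.exp w‖ < η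

/-- one step of a chain -/
def St (c : ℂ) (η : ℝ) (a b : ℕ) : Prop := 0 < a ∧ 0 < b ∧ dist (sig c a) (sig c b) < η

lemma coprime_of_sep {k a b : ℕ} (ha : ∀ q : ℕ, q.Prime → q ∣ a → q ≤ k)
    (hb : ∀ q : ℕ, q.Prime → q ∣ b → k < q) : a.Coprime b := by
  refine Nat.Coprime.symm (Nat.coprime_of_dvd ?_)
  intro q hq h1 h2
  have := ha q hq h2
  have := hb q hq h1
  omega

theorem chain_aux {c : ℂ} (hc : c.re < -1) (hF : Fill c) (η : ℝ) (hη : 0 < η) :
    ∃ M : ℕ, ∀ i : ℕ, i ≤ M → ∀ n0 m : ℕ, 0 < n0 → 0 < m →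
      (∀ q : ℕ, q.Prime → q ∣ n0 → q ≤ M - i) → (∀ q : ℕ, q.Prime → q ∣ m → M - i < q) →
      Relation.ReflTransGen (St c η) (n0 * m) n0 := by
  have hG := Gam_nonneg c
  have hη' : 0 < η / (Gam c + 1) := by positivity
  obtain ⟨M, hM⟩ := tail_small hc _ hη'
  refine ⟨M, fun i => ?_⟩
  induction i with
  | zero =>
    intro _ n0 m hn0 hm h1 h2
    refine Relation.ReflTransGen.single ⟨Nat.mul_pos hn0 hm, hn0, ?_⟩
    rw [sig_mul c (coprime_of_sep h1 h2), dist_eq_norm]
    have h3 := hM m hm (by simpa using h2)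
    have h4 := norm_sig_le hc n0
    have e : sig c n0 * sig c m - sig c n0 = sig c n0 * (sig c m - 1) := by ring
    rw [e, norm_mul]
    calc ‖sig c n0‖ * ‖sig c m - 1‖ ≤ Gam c * ‖sig c m - 1‖ := by gcongr
      _ ≤ Gam c * (η / (Gam c + 1)) := by gcongr
      _ < (Gam c + 1) * (η / (Gam c + 1)) := by nlinarith
      _ = η := by field_simp
  | succ i ih =>
    intro hi n0 m hn0 hm h1 h2
    have ih' := ih (by omega)
    set k := M - (i + 1) with hk
    have hk1 : M - i = k + 1 := by omega
    rw [hk1] at ih'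
    by_cases hp : (k + 1).Prime
    · set p := k + 1 with hpdef
      obtain ⟨a, m1, hm1, hmeq⟩ := Nat.exists_eq_pow_mul_and_not_dvd hm.ne' p hp.ne_one
      have hm1pos : 0 < m1 := by
        rcases Nat.eq_zero_or_pos m1 with h | h
        · rw [h] at hm1; simp at hm1
        · exact h
      have hm1q : ∀ q : ℕ, q.Prime → q ∣ m1 → p < q := by
        intro q hq hd
        have h3 := h2 q hq (hmeq ▸ hd.mul_left _)
        have h4 : q ≠ p := by rintro rfl; exact hm1 hd
        omega
      have hpow : ∀ b : ℕ, 0 < n0 * p ^ b ∧ ∀ q : ℕ, q.Prime → q ∣ n0 * p ^ b → q ≤ p := by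
        intro b
        refine ⟨Nat.mul_pos hn0 (pow_pos hp.pos _), fun q hq hd => ?_⟩
        rcases (Nat.Prime.dvd_mul hq).1 hd with h3 | h3
        · have := h1 q hq h3; omega
        · exact Nat.le_of_dvd hp.pos (hq.dvd_of_dvd_pow h3)
      have step1 : Relation.ReflTransGen (St c η) (n0 * m) (n0 * p ^ a) := by
        have := ih' (n0 * p ^ a) m1 (hpow a).1 hm1pos (hpow a).2 hm1q
        rw [hmeq, ← mul_assoc]
        exact this
      have hcop : ∀ b : ℕ, n0.Coprime (p ^ b) := by
        intro b
        refine Nat.Coprime.pow_right b ?_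
        refine Nat.Coprime.symm ((Nat.Prime.coprime_iff_not_dvd hp).2 fun hd => ?_)
        have := h1 p hp hd
        omega
      have step2 : ∀ b : ℕ, Relation.ReflTransGen (St c η) (n0 * p ^ b) n0 := by
        intro b
        induction b with
        | zero => simpa using Relation.ReflTransGen.refl
        | succ b ihb =>
          refine Relation.ReflTransGen.trans ?_ ihb
          obtain ⟨w, hw, hw2⟩ := ratio hc hp b
          obtain ⟨m2, hm2, hm2q, hm2n⟩ := hF p hp w hw _ hη'
          have h5 := ih' (n0 * p ^ b) m2 (hpow b).1 hm2 (hpow b).2 hm2q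
          refine Relation.ReflTransGen.head ⟨(hpow (b + 1)).1, Nat.mul_pos (hpow b).1 hm2, ?_⟩ h5
          rw [sig_mul c (coprime_of_sep (hpow b).2 hm2q), sig_mul c (hcop b),
            sig_mul c (hcop (b + 1)), hw2, dist_eq_norm]
          have e : sig c n0 * (Complex.exp w * sig c (p ^ b)) - sig c n0 * sig c (p ^ b) * sig c m2 =
              -((sig c n0 * sig c (p ^ b)) * (sig c m2 - Complex.exp w)) := by ring
          rw [e, norm_neg, norm_mul, ← sig_mul c (hcop b)]
          calc ‖sig c (n0 * p ^ b)‖ * ‖sig c m2 - Complex.exp w‖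
              ≤ Gam c * ‖sig c m2 - Complex.exp w‖ := by gcongr; exact norm_sig_le hc _
            _ ≤ Gam c * (η / (Gam c + 1)) := by gcongr
            _ < (Gam c + 1) * (η / (Gam c + 1)) := by nlinarith
            _ = η := by field_simp
      exact step1.trans (step2 a)
    · refine ih' n0 m hn0 hm (fun q hq hd => (h1 q hq hd).trans (by omega)) fun q hq hd => ?_
      have h3 := h2 q hq hd
      have h4 : q ≠ k + 1 := by rintro rfl; exact hp hq
      omega

theorem chain_one {c : ℂ} (hc : c.re < -1) (hF : Fill c) (η : ℝ) (hη : 0 < η) (n : ℕ)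
    (hn : 0 < n) : Relation.ReflTransGen (St c η) n 1 := by
  obtain ⟨M, hM⟩ := chain_aux hc hF η hη
  have h := hM M le_rfl 1 n one_pos hn (fun q hq hd => absurd (Nat.dvd_one.1 hd) hq.ne_one)
    (fun q hq _ => by simpa using hq.pos)
  simpa using h

theorem connected_of_fill {c : ℂ} (hc : c.re < -1) (hF : Fill c) :
    IsConnected (closure (Set.range (fun n : ℕ+ => sig c n))) := by
  refine isConnected_closure_of_chain (fun n : ℕ+ => sig c n) ?_ ?_
  · rw [isBounded_iff_forall_norm_le]
    refine ⟨Gam c, ?_⟩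
    rintro _ ⟨n, rfl⟩
    exact norm_sig_le hc n
  · intro η hη i j
    have key : ∀ n : ℕ+, Relation.ReflTransGen
        (fun a b : ℕ+ => dist (sig c a) (sig c b) < η) n 1 := by
      intro n
      have h := chain_one hc hF η hη n n.pos
      have h2 := Relation.ReflTransGen.lift (r := St c η)
        (p := fun a b : ℕ+ => dist (sig c a) (sig c b) < η)
        Nat.toPNat' ?_ _ _ h
      · have e1 : Nat.toPNat' (n : ℕ) = n := by
          apply PNat.eq
          rw [Nat.toPNat'_coe, if_pos n.pos]
        rw [Function.onFun, e1] at h2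
        exact h2
      · intro a b hab
        simp only [Function.onFun]
        simp only [Nat.toPNat'_coe, if_pos hab.1, if_pos hab.2.1]
        exact hab.2.2
    have hsymm : ∀ a b : ℕ+, Relation.ReflTransGen
        (fun a b : ℕ+ => dist (sig c a) (sig c b) < η) a b → Relation.ReflTransGen
        (fun a b : ℕ+ => dist (sig c a) (sig c b) < η) b a := by
      intro a b hab
      induction hab with
      | refl => exact Relation.ReflTransGen.refl
      | tail _ hxy ih =>
        refine Relation.ReflTransGen.head ?_ ih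
        rw [dist_comm]
        exact hxy
    exact (key i).trans (hsymm _ _ (key j))

end Q254.DC
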