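import Mathlib

/-! # Reducing a complex number by subtracting vectors that point roughly in its direction -/

set_option autoImplicit false

open Finset
open scoped ComplexConjugate

namespace Q254.DC

/-- the vector `v` makes a small angle with the unit vector `u` -/
def Good (u v : ℂ) : Prop := 7 / 8 * ‖v‖ ≤ (v * conj u).re

lemma reduce {ι : Type*} (v : ι → ℂ) (S : Finset ι) (u : ℂ) (hu : ‖u‖ = 1) (r : ℝ)
    (hg : ∀ q ∈ S, Good u (v q)) (hs : ∑ q ∈ S, ‖v q‖ ≤ r) :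
    ‖(r : ℂ) * u - ∑ q ∈ S, v q‖ ≤ r - (∑ q ∈ S, ‖v q‖) / 2 := by
  set s := ∑ q ∈ S, ‖v q‖ with hsdef
  set V := ∑ q ∈ S, v q with hV
  have hs0 : 0 ≤ s := sum_nonneg fun q _ => norm_nonneg _
  have hVn : ‖V‖ ≤ s := norm_sum_le _ _
  have hre : 7 / 8 * s ≤ (V * conj u).re := by
    rw [hV, sum_mul, Complex.re_sum, hsdef, mul_sum]
    exact sum_le_sum fun q hq => hg q hq
  have huu : u * conj u = 1 := by
    rw [Complex.mul_conj, Complex.normSq_eq_norm_sq, hu]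
    norm_num
  have h1 : ‖(r : ℂ) * u - V‖ = ‖(r : ℂ) - V * conj u‖ := by
    have e : (r : ℂ) - V * conj u = ((r : ℂ) * u - V) * conj u := by
      rw [sub_mul, mul_assoc, huu, mul_one]
    rw [e, norm_mul, Complex.norm_conj, hu, mul_one]
  have h2 : ‖V * conj u‖ = ‖V‖ := by rw [norm_mul, Complex.norm_conj, hu, mul_one]
  set V' := V * conj u with hV'
  have h3 : V'.re ^ 2 + V'.im ^ 2 ≤ s ^ 2 := by
    have h4 : ‖V'‖ ^ 2 = V'.re ^ 2 + V'.im ^ 2 := by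
      rw [← Complex.normSq_eq_norm_sq, Complex.normSq_apply]; ring
    rw [← h4, h2]
    gcongr
  rw [h1]
  have hrs : 0 ≤ r - s / 2 := by linarith
  refine abs_le_of_sq_le_sq' ?_ hrs |>.2
  have h5 : ‖(r : ℂ) - V'‖ ^ 2 = (r - V'.re) ^ 2 + V'.im ^ 2 := by
    rw [← Complex.normSq_eq_norm_sq, Complex.normSq_apply]
    simp
    ring
  rw [h5]
  nlinarith [mul_le_mul_of_nonneg_left hre (hs0.trans hs), mul_le_mul_of_nonneg_left hs hs0]

lemma subset_sum {ι : Type*} [DecidableEq ι] (a : ι → ℝ) (ha : ∀ q, 0 ≤ a q) (l : ℝ)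
    (P : Finset ι) :
    (∀ q ∈ P, a q ≤ l) → 0 ≤ l → ∀ τ : ℝ, 0 ≤ τ → τ ≤ ∑ q ∈ P, a q →
      ∃ S ⊆ P, ∑ q ∈ S, a q ≤ τ ∧ τ - l ≤ ∑ q ∈ S, a q := by
  induction P using Finset.induction_on with
  | empty =>
    intro _ hl τ h0 h1
    rw [sum_empty] at h1
    exact ⟨∅, subset_rfl, by simpa using h0, by rw [sum_empty]; linarith⟩
  | insert q P hq ih =>
    intro hle hl τ h0 h1
    rw [sum_insert hq] at h1
    rcases le_or_gt τ (∑ q ∈ P, a q) with h2 | h2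
    · obtain ⟨S, hS, h3⟩ := ih (fun x hx => hle x (mem_insert_of_mem hx)) hl τ h0 h2
      exact ⟨S, hS.trans (subset_insert _ _), h3⟩
    · refine ⟨P, subset_insert _ _, h2.le, ?_⟩
      have := hle q (mem_insert_self _ _)
      linarith

lemma one_step {ι : Type*} [DecidableEq ι] (v : ι → ℂ) (P : Finset ι) (L l : ℝ) (hL : 0 < L)
    (hl : 0 ≤ l) (hlL : l ≤ L / 4) (w u : ℂ) (hu : ‖u‖ = 1) (hw : w = (‖w‖ : ℂ) * u)
    (hg : ∀ q ∈ P, Good u (v q)) (hle : ∀ q ∈ P, ‖v q‖ ≤ l) (htot : L ≤ ∑ q ∈ P, ‖v q‖) :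
    ∃ S ⊆ P, ‖w - ∑ q ∈ S, v q‖ ≤ max (‖w‖ / 2 + L / 8) (‖w‖ - 3 * L / 8) := by
  obtain ⟨S, hS, h1, h2⟩ := subset_sum (fun q => ‖v q‖) (fun q => norm_nonneg _) l P hle hl
    (min ‖w‖ L) (le_min (norm_nonneg _) hL.le) ((min_le_right _ _).trans htot)
  refine ⟨S, hS, ?_⟩
  have h3 := reduce v S u hu ‖w‖ (fun q hq => hg q (hS hq)) (h1.trans (min_le_left _ _))
  rw [← hw] at h3
  refine h3.trans ?_
  rcases min_cases ‖w‖ L with ⟨h4, _⟩ | ⟨h4, _⟩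
  · rw [h4] at h2
    refine le_max_of_le_left ?_
    linarith
  · rw [h4] at h2
    refine le_max_of_le_right ?_
    linarith

end Q254.DC
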