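import Mathlib
import Pool.Agent.Q254.DC.Reduce

/-! # Primes `q` with `q ^ c` pointing in a given direction -/

set_option autoImplicit false

open Finset Filter Asymptotics Topology
open scoped ComplexConjugate

namespace Q254.DC

/-- `v_q = log (1 + q ^ c)` -/
noncomputable def vv (c : ℂ) (q : ℕ) : ℂ := Complex.log (1 + (q : ℂ) ^ c)

lemma cheb : ∃ z0 : ℝ, 1 ≤ z0 ∧ ∀ z : ℝ, z0 ≤ z → z ≤ Chebyshev.theta (4 * z) - Chebyshev.theta z := by
  have h1 : (fun X : ℝ => Real.log 2 + Real.log (X + 2) + 2 * (√X * Real.log X)) =o[atTop]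
      (fun X : ℝ => X) := by
    have a1 : (fun _ : ℝ => Real.log 2) =o[atTop] (fun X : ℝ => X) := isLittleO_const_id_atTop _
    have a2 : (fun X : ℝ => Real.log (X + 2)) =o[atTop] (fun X : ℝ => X) := by
      have b1 : (fun X : ℝ => Real.log (X + 2)) =o[atTop] (fun X : ℝ => X + 2) :=
        Real.isLittleO_log_id_atTop.comp_tendsto (tendsto_atTop_add_const_right _ 2 tendsto_id)
      have b2 : (fun X : ℝ => X + 2) =O[atTop] (fun X : ℝ => X) :=
        (isBigO_refl _ _).add (isLittleO_const_id_atTop (2 : ℝ)).isBigO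
      exact b1.trans_isBigO b2
    have a3 : (fun X : ℝ => √X * Real.log X) =o[atTop] (fun X : ℝ => X) := by
      have b1 : (fun X : ℝ => Real.log X) =o[atTop] (fun X : ℝ => X ^ (1 / 2 : ℝ)) :=
        isLittleO_log_rpow_atTop (by norm_num)
      have b2 : (fun X : ℝ => √X * Real.log X) =o[atTop] (fun X : ℝ => √X * X ^ (1 / 2 : ℝ)) :=
        (isBigO_refl _ _).mul_isLittleO b1
      refine b2.congr' (EventuallyEq.refl _ _) ?_
      filter_upwards [eventually_ge_atTop (0 : ℝ)] with X hX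
      rw [← Real.sqrt_eq_rpow, Real.mul_self_sqrt hX]
    exact (a1.add a2).add (a3.const_mul_left 2)
  have hpos : (0 : ℝ) < (2 * Real.log 2 - 1) / 4 := by
    have := Real.log_two_gt_d9
    linarith
  obtain ⟨X0, hX0⟩ := (h1.bound hpos).exists_forall_of_atTop
  refine ⟨max 1 X0, le_max_left _ _, fun z hz => ?_⟩
  have hz1 : 1 ≤ z := (le_max_left _ _).trans hz
  have hzX : X0 ≤ 4 * z := by
    have := (le_max_right _ _).trans hz
    linarith
  have h2 := hX0 (4 * z) hzX
  rw [Real.norm_of_nonneg (by linarith : (0 : ℝ) ≤ 4 * z)] at h2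
  have h3 := (Real.le_norm_self _).trans h2
  have h4 := Chebyshev.theta_ge' (x := 4 * z) (by linarith)
  have h5 := Chebyshev.theta_le_log4_mul_x (x := z) (by linarith)
  have h6 : Real.log 4 = 2 * Real.log 2 := by
    rw [show (4 : ℝ) = 2 ^ 2 by norm_num, Real.log_pow]
    norm_num
  rw [h6] at h5
  nlinarith

/-- the argument speed -/
noncomputable def tt : ℝ := (4 / 5) / Real.log 4

/-- the block factor -/
noncomputable def Lam : ℝ := 4 * Real.exp (2 * Real.pi / tt)

lemma tt_pos : 0 < tt := by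
  unfold tt
  have := Real.log_pos (by norm_num : (1 : ℝ) < 4)
  positivity

lemma Lam_ge : 4 ≤ Lam := by
  unfold Lam
  have h : 1 ≤ Real.exp (2 * Real.pi / tt) := Real.one_le_exp (by
    have := tt_pos
    have := Real.pi_pos
    positivity)
  linarith

/-- the exponent `c = -(1 + ε) + i t` -/
noncomputable def cc (ε : ℝ) : ℂ := ⟨-(1 + ε), tt⟩

lemma cpow_polar (ε : ℝ) (q : ℕ) (hq : 0 < q) :
    (q : ℂ) ^ cc ε = ((Real.exp (-(1 + ε) * Real.log q) : ℝ) : ℂ) *
      Complex.exp (((tt * Real.log q : ℝ) : ℂ) * Complex.I) := by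
  have hq0 : (q : ℂ) ≠ 0 := by exact_mod_cast hq.ne'
  rw [Complex.cpow_def_of_ne_zero hq0, ← Complex.natCast_log, Complex.ofReal_exp, ← Complex.exp_add]
  congr 1
  have : cc ε = ((-(1 + ε) : ℝ) : ℂ) + (tt : ℂ) * Complex.I := by
    apply Complex.ext <;> simp [cc]
  rw [this]
  push_cast
  ring

lemma norm_cpow_cc (ε : ℝ) (q : ℕ) (hq : 0 < q) :
    ‖(q : ℂ) ^ cc ε‖ = (q : ℝ) ^ (-(1 + ε)) := by
  rw [Complex.norm_natCast_cpow_of_pos hq]
  rfl

lemma norm_cpow_le (ε : ℝ) (hε : 0 < ε) (q : ℕ) (hq : 0 < q) : ‖(q : ℂ) ^ cc ε‖ ≤ 1 / q := by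
  rw [norm_cpow_cc ε q hq, one_div, ← Real.rpow_neg_one]
  exact Real.rpow_le_rpow_of_exponent_le (by exact_mod_cast hq) (by linarith)

/-- comparison of `log (1 + x)` and `x` -/
lemma log_close {x : ℂ} (hx : ‖x‖ ≤ 1 / 100) : ‖Complex.log (1 + x) - x‖ ≤ ‖x‖ / 100 := by
  have h1 := Complex.norm_log_one_add_sub_self_le (z := x) (by linarith)
  refine h1.trans ?_
  have h2 : (1 - ‖x‖)⁻¹ ≤ 100 / 99 := by
    rw [inv_le_comm₀ (by linarith) (by norm_num)]
    linarith
  have h0 := norm_nonneg x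
  calc ‖x‖ ^ 2 * (1 - ‖x‖)⁻¹ / 2 ≤ ‖x‖ ^ 2 * (100 / 99) / 2 := by gcongr
    _ = ‖x‖ * (‖x‖ * (50 / 99)) := by ring
    _ ≤ ‖x‖ * (1 / 100) := by
      apply mul_le_mul_of_nonneg_left _ h0
      linarith
    _ = ‖x‖ / 100 := by ring

lemma good_of_angle (ε : ℝ) (hε : 0 < ε) (q : ℕ) (hq : 100 ≤ q) (u : ℂ) (hu : ‖u‖ = 1) (m : ℤ)
    (hδ : |tt * Real.log q - Complex.arg u - m * (2 * Real.pi)| ≤ 2 / 5) :
    Good u (vv (cc ε) q) ∧ 99 / 100 * (q : ℝ) ^ (-(1 + ε)) ≤ ‖vv (cc ε) q‖ ∧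
      ‖vv (cc ε) q‖ ≤ 3 / (2 * q) := by
  have hq0 : 0 < q := by omega
  have hqR : (100 : ℝ) ≤ q := by exact_mod_cast hq
  set x : ℂ := (q : ℂ) ^ cc ε with hx
  have hxn : ‖x‖ = (q : ℝ) ^ (-(1 + ε)) := norm_cpow_cc ε q hq0
  have hx1 : ‖x‖ ≤ 1 / q := norm_cpow_le ε hε q hq0
  have hx100 : ‖x‖ ≤ 1 / 100 := hx1.trans (by gcongr)
  have hclose := log_close hx100
  have hx0 := norm_nonneg x
  have hv1 : ‖vv (cc ε) q‖ ≤ 101 / 100 * ‖x‖ := by
    have : vv (cc ε) q = (Complex.log (1 + x) - x) + x := by unfold vv; ring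
    rw [this]
    refine (norm_add_le _ _).trans ?_
    linarith
  have hv2 : 99 / 100 * ‖x‖ ≤ ‖vv (cc ε) q‖ := by
    have h := norm_sub_norm_le x (x - Complex.log (1 + x))
    rw [sub_sub_cancel, norm_sub_rev x] at h
    unfold vv
    linarith
  refine ⟨?_, by rw [← hxn]; exact hv2, ?_⟩
  · have hu' : u = Complex.exp ((Complex.arg u : ℂ) * Complex.I) := by
      have h := Complex.norm_mul_exp_arg_mul_I u
      rw [hu, Complex.ofReal_one, one_mul] at h
      exact h.symm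
    have hconj : conj u = Complex.exp (-((Complex.arg u : ℂ) * Complex.I)) := by
      conv_lhs => rw [hu']
      rw [← Complex.exp_conj]
      congr 1
      simp
    have hxc : (x * conj u).re = ‖x‖ * Real.cos (tt * Real.log q - Complex.arg u) := by
      have e1 : x * conj u = ((Real.exp (-(1 + ε) * Real.log q) : ℝ) : ℂ) *
          Complex.exp (((tt * Real.log q - Complex.arg u : ℝ) : ℂ) * Complex.I) := by
        rw [hx, cpow_polar ε q hq0, hconj, mul_assoc, ← Complex.exp_add]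
        congr 2
        push_cast
        ring
      have e2 : ‖x‖ = Real.exp (-(1 + ε) * Real.log q) := by
        rw [hxn, Real.rpow_def_of_pos (by linarith)]
        congr 1
        ring
      rw [e1, Complex.re_ofReal_mul, Complex.exp_ofReal_mul_I_re, ← e2]
    have hcos : 23 / 25 ≤ Real.cos (tt * Real.log q - Complex.arg u) := by
      have e3 : Real.cos (tt * Real.log q - Complex.arg u) =
          Real.cos (tt * Real.log q - Complex.arg u - m * (2 * Real.pi)) := by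
        rw [Real.cos_sub_int_mul_two_pi]
      rw [e3]
      have h1 := Real.one_sub_sq_div_two_le_cos (x := tt * Real.log q - Complex.arg u - m * (2 * Real.pi))
      have h2 : (tt * Real.log q - Complex.arg u - m * (2 * Real.pi)) ^ 2 ≤ (2 / 5) ^ 2 := by
        rw [← sq_abs]
        gcongr
      linarith
    have h3 : 23 / 25 * ‖x‖ ≤ (x * conj u).re := by
      rw [hxc]
      nlinarith
    have h4 : ‖((Complex.log (1 + x) - x) * conj u)‖ ≤ ‖x‖ / 100 := by
      rw [norm_mul, Complex.norm_conj, hu, mul_one]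
      exact hclose
    have h5 : -(‖x‖ / 100) ≤ ((Complex.log (1 + x) - x) * conj u).re :=
      (abs_le.1 ((Complex.abs_re_le_norm _).trans h4)).1
    have h6 : (vv (cc ε) q * conj u).re = (x * conj u).re +
        ((Complex.log (1 + x) - x) * conj u).re := by
      rw [← Complex.add_re]
      congr 1
      unfold vv
      ring
    unfold Good
    rw [h6]
    nlinarith
  · calc ‖vv (cc ε) q‖ ≤ 101 / 100 * ‖x‖ := hv1
      _ ≤ 101 / 100 * (1 / q) := by gcongr
      _ ≤ 3 / 2 * (1 / q) := mul_le_mul_of_nonneg_right (by norm_num) (by positivity)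
      _ = 3 / (2 * q) := by field_simp

theorem supply : ∃ Y0 : ℝ, 100 ≤ Y0 ∧ ∀ ε : ℝ, 0 < ε → ∀ y : ℝ, Y0 ≤ y → ∀ u : ℂ,
    ‖u‖ = 1 → ∃ P : Finset ℕ, (∀ q ∈ P, q.Prime ∧ y < q ∧ (q : ℝ) ≤ Lam * y ∧
      Good u (vv (cc ε) q) ∧ ‖vv (cc ε) q‖ ≤ 3 / (2 * y)) ∧
      1 / 5 * (Lam * y) ^ (-ε) / Real.log (Lam * y) ≤ ∑ q ∈ P, ‖vv (cc ε) q‖ := by
  obtain ⟨z0, hz0, hcheb⟩ := cheb
  refine ⟨max 100 z0, le_max_left _ _, fun ε hε y hy u hu => ?_⟩
  have hy100 : 100 ≤ y := (le_max_left _ _).trans hy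
  have hyz0 : z0 ≤ y := (le_max_right _ _).trans hy
  have hy0 : 0 < y := by linarith
  have ht := tt_pos
  have hpi := Real.pi_pos
  -- choice of `z`
  set m : ℤ := ⌈(tt * Real.log y - Complex.arg u + 2 / 5) / (2 * Real.pi)⌉ with hm
  have hm1 : (tt * Real.log y - Complex.arg u + 2 / 5) ≤ m * (2 * Real.pi) := by
    have := Int.le_ceil ((tt * Real.log y - Complex.arg u + 2 / 5) / (2 * Real.pi))
    rwa [← hm, div_le_iff₀ (by positivity)] at this
  have hm2 : m * (2 * Real.pi) < (tt * Real.log y - Complex.arg u + 2 / 5) + 2 * Real.pi := by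
    have := Int.ceil_lt_add_one ((tt * Real.log y - Complex.arg u + 2 / 5) / (2 * Real.pi))
    rw [← hm, ← sub_lt_iff_lt_add, lt_div_iff₀ (by positivity)] at this
    linarith
  set lz : ℝ := (Complex.arg u - 2 / 5 + m * (2 * Real.pi)) / tt with hlz
  have hlz1 : Real.log y ≤ lz := by
    rw [hlz, le_div_iff₀ ht]
    linarith
  have hlz2 : lz ≤ Real.log y + 2 * Real.pi / tt := by
    rw [hlz, div_le_iff₀ ht, add_mul, div_mul_cancel₀ _ ht.ne']
    linarith
  set z : ℝ := Real.exp lz with hz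
  have hyz : y ≤ z := by
    rw [hz, ← Real.exp_log hy0]
    exact Real.exp_le_exp.2 hlz1
  have h4z : 4 * z ≤ Lam * y := by
    have : z ≤ y * Real.exp (2 * Real.pi / tt) := by
      calc z ≤ Real.exp (Real.log y + 2 * Real.pi / tt) := Real.exp_le_exp.2 hlz2
        _ = y * Real.exp (2 * Real.pi / tt) := by rw [Real.exp_add, Real.exp_log hy0]
    unfold Lam
    linarith
  have hlog4 : 0 < Real.log 4 := Real.log_pos (by norm_num)
  have htt : tt * Real.log 4 = 4 / 5 := by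
    unfold tt
    field_simp
  set P : Finset ℕ := (Ioc ⌊z⌋₊ ⌊4 * z⌋₊).filter Nat.Prime with hP
  have hz0' : 0 < z := Real.exp_pos _
  have hPq : ∀ q ∈ P, q.Prime ∧ z < q ∧ (q : ℝ) ≤ 4 * z := by
    intro q hq
    rw [hP, mem_filter, mem_Ioc] at hq
    exact ⟨hq.2, (Nat.floor_lt hz0'.le).1 hq.1.1, (Nat.le_floor_iff (by linarith)).1 hq.1.2⟩
  have hPg : ∀ q ∈ P, Good u (vv (cc ε) q) ∧ 99 / 100 * (q : ℝ) ^ (-(1 + ε)) ≤ ‖vv (cc ε) q‖ ∧
      ‖vv (cc ε) q‖ ≤ 3 / (2 * q) := by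
    intro q hq
    obtain ⟨h1, h2, h3⟩ := hPq q hq
    have hq100 : (100 : ℝ) ≤ q := by linarith
    refine good_of_angle ε hε q (by exact_mod_cast hq100) u hu m ?_
    have hlq1 : lz ≤ Real.log q := by
      rw [← Real.log_exp lz, ← hz]
      exact Real.log_le_log hz0' h2.le
    have hlq2 : Real.log q ≤ Real.log 4 + lz := by
      have h5 : Real.log (4 * z) = Real.log 4 + lz := by
        rw [Real.log_mul (by norm_num) hz0'.ne', hz, Real.log_exp]
      rw [← h5]
      exact Real.log_le_log (by linarith) h3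
    have h6 : tt * lz = Complex.arg u - 2 / 5 + m * (2 * Real.pi) := by
      rw [hlz]
      field_simp
    have h7 : tt * lz ≤ tt * Real.log q := mul_le_mul_of_nonneg_left hlq1 ht.le
    have h8 : tt * Real.log q ≤ tt * Real.log 4 + tt * lz := by
      rw [← mul_add]
      exact mul_le_mul_of_nonneg_left hlq2 ht.le
    rw [abs_le]
    constructor <;> linarith
  refine ⟨P, fun q hq => ?_, ?_⟩
  · obtain ⟨h1, h2, h3⟩ := hPq q hq
    obtain ⟨h4, -, h6⟩ := hPg q hq
    refine ⟨h1, by linarith, by linarith, h4, h6.trans ?_⟩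
    gcongr
    linarith
  · -- the total length
    have hth : z ≤ ∑ q ∈ P, Real.log q := by
      have h1 := hcheb z (hyz0.trans hyz)
      have h2 : Chebyshev.theta (4 * z) - Chebyshev.theta z = ∑ q ∈ P, Real.log q := by
        unfold Chebyshev.theta
        have h3 : Ioc 0 ⌊4 * z⌋₊ = Ioc 0 ⌊z⌋₊ ∪ Ioc ⌊z⌋₊ ⌊4 * z⌋₊ := by
          rw [Ioc_union_Ioc_eq_Ioc (Nat.zero_le _) (Nat.floor_mono (by linarith))]
        rw [h3, filter_union, sum_union, add_sub_cancel_left]
        exact disjoint_filter_filter (Ioc_disjoint_Ioc_of_le le_rfl)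
      linarith
    have hlog4z : 0 < Real.log (4 * z) := Real.log_pos (by linarith)
    have hlogL : 0 < Real.log (Lam * y) := Real.log_pos (by linarith)
    have hcard : z ≤ (P.card : ℝ) * Real.log (4 * z) := by
      refine hth.trans ?_
      rw [← nsmul_eq_mul]
      refine sum_le_card_nsmul P _ _ fun q hq => ?_
      obtain ⟨h1, h2, h3⟩ := hPq q hq
      exact Real.log_le_log (by linarith) h3
    have hlow : ∀ q ∈ P, 99 / 100 * (4 * z) ^ (-(1 + ε)) ≤ ‖vv (cc ε) q‖ := by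
      intro q hq
      obtain ⟨h1, h2, h3⟩ := hPq q hq
      refine le_trans ?_ (hPg q hq).2.1
      have : (4 * z) ^ (-(1 + ε)) ≤ (q : ℝ) ^ (-(1 + ε)) :=
        Real.rpow_le_rpow_of_nonpos (by linarith) h3 (by linarith)
      linarith
    have hsum : (P.card : ℝ) * (99 / 100 * (4 * z) ^ (-(1 + ε))) ≤ ∑ q ∈ P, ‖vv (cc ε) q‖ := by
      rw [← nsmul_eq_mul]
      exact card_nsmul_le_sum P _ _ hlow
    refine le_trans ?_ hsum
    have h4zpos : 0 < 4 * z := by linarith
    have e1 : (4 * z) ^ (-(1 + ε)) = (4 * z) ^ (-ε) / (4 * z) := by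
      rw [show -(1 + ε) = -ε - 1 by ring, Real.rpow_sub_one h4zpos.ne']
    have h9 : z / Real.log (4 * z) ≤ P.card := by
      rw [div_le_iff₀ hlog4z]
      exact hcard
    have hpos1 : 0 < (4 * z) ^ (-ε) := Real.rpow_pos_of_pos h4zpos _
    calc 1 / 5 * (Lam * y) ^ (-ε) / Real.log (Lam * y)
        ≤ 1 / 5 * (4 * z) ^ (-ε) / Real.log (4 * z) := by
          gcongr ?_ / ?_
          · gcongr 1 / 5 * ?_
            exact Real.rpow_le_rpow_of_nonpos h4zpos h4z (by linarith)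
          · exact Real.log_le_log h4zpos h4z
      _ ≤ (z / Real.log (4 * z)) * (99 / 100 * ((4 * z) ^ (-ε) / (4 * z))) := by
          have e2 : (z / Real.log (4 * z)) * (99 / 100 * ((4 * z) ^ (-ε) / (4 * z))) =
              99 / 400 * (4 * z) ^ (-ε) / Real.log (4 * z) := by
            field_simp
            ring
          rw [e2]
          refine div_le_div_of_nonneg_right ?_ hlog4z.le
          exact mul_le_mul_of_nonneg_right (by norm_num) hpos1.le
      _ ≤ (P.card : ℝ) * (99 / 100 * (4 * z) ^ (-(1 + ε))) := by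
          rw [e1]
          gcongr

end Q254.DC
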