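import Mathlib
import Pool.Agent.Q254.DC.Supply
import Pool.Agent.Q254.DC.Chain

/-! # Subset sums of `log (1 + q ^ c)` fill discs -/

set_option autoImplicit false

open Finset Filter Topology

namespace Q254.DC

lemma sig_prod (c : ℂ) (S : Finset ℕ) (hS : ∀ q ∈ S, q.Prime)
    (hne : ∀ q ∈ S, 1 + (q : ℂ) ^ c ≠ 0) :
    sig c (∏ q ∈ S, q) = Complex.exp (∑ q ∈ S, vv c q) := by
  induction S using Finset.induction_on with
  | empty => simp [sig_one]
  | insert q S hq ih =>
    rw [prod_insert hq, sum_insert hq, Complex.exp_add]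
    have h1 : q.Coprime (∏ x ∈ S, x) := by
      refine Nat.Coprime.prod_right fun x hx => ?_
      refine (Nat.coprime_primes (hS q (mem_insert_self _ _)) (hS x (mem_insert_of_mem hx))).2 ?_
      rintro rfl
      exact hq hx
    rw [sig_mul c h1, ih (fun x hx => hS x (mem_insert_of_mem hx))
      (fun x hx => hne x (mem_insert_of_mem hx))]
    congr 1
    have h2 := sig_prime_pow c (hS q (mem_insert_self _ _)) 1
    rw [pow_one] at h2
    rw [h2]
    unfold vv
    rw [Complex.exp_log (hne q (mem_insert_self _ _))]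
    simp [sum_range_succ]

/-- block end points -/
noncomputable def yy (U : ℝ) (k : ℕ) : ℝ := Real.exp (U + k * Real.log Lam)

/-- guaranteed length in each direction -/
noncomputable def LL (ε U : ℝ) (k : ℕ) : ℝ :=
  1 / 5 * Real.exp (-ε * (U + (k + 1) * Real.log Lam)) / (U + (k + 1) * Real.log Lam)

lemma logLam_pos : 0 < Real.log Lam := Real.log_pos (by linarith [Lam_ge])

lemma Lam_pos : 0 < Lam := by linarith [Lam_ge]

lemma yy_succ (U : ℝ) (k : ℕ) : yy U (k + 1) = Lam * yy U k := by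
  have h : Lam = Real.exp (Real.log Lam) := (Real.exp_log Lam_pos).symm
  unfold yy
  conv_rhs => rw [h, Real.log_exp, ← Real.exp_add]
  congr 1
  push_cast
  ring

lemma yy_pos (U : ℝ) (k : ℕ) : 0 < yy U k := Real.exp_pos _

lemma yy_mono (U : ℝ) {j k : ℕ} (h : j ≤ k) : yy U j ≤ yy U k := by
  unfold yy
  apply Real.exp_le_exp.2
  have : (j : ℝ) ≤ k := by exact_mod_cast h
  have := logLam_pos
  nlinarith

lemma LL_eq (ε U : ℝ) (k : ℕ) :
    LL ε U k = 1 / 5 * (Lam * yy U k) ^ (-ε) / Real.log (Lam * yy U k) := by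
  rw [← yy_succ]
  unfold LL yy
  rw [Real.log_exp, ← Real.exp_mul]
  push_cast
  congr 3
  ring

/-- The parameters. -/
structure Param (Y0 ε U : ℝ) : Prop where
  ε_pos : 0 < ε
  U_pos : 0 < U
  hY : Y0 ≤ Real.exp U
  h1 : ∀ k : ℕ, 8 * Lam / yy U k ≤ LL ε U k
  h2 : ∀ k : ℕ, 9 / 10 * LL ε U k ≤ LL ε U (k + 1)
  h3 : ∃ K : ℕ, 3 / 4 ≤ ∑ k ∈ range K, 3 * LL ε U k / 8

lemma LL_pos {ε U : ℝ} (hU : 0 < U) (k : ℕ) : 0 < LL ε U k := by
  unfold LL
  have := logLam_pos
  positivity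

lemma exists_param (Y0 : ℝ) : ∃ ε U : ℝ, Param Y0 ε U := by
  set l := Real.log Lam with hl
  have hl0 : 0 < l := logLam_pos
  have hLam := Lam_pos
  have hLam4 := Lam_ge
  -- choice of `U`
  have hU1 : ∀ᶠ u : ℝ in atTop, 40 * Lam ^ 2 * u ≤ Real.exp (u / 2) := by
    have h := (Real.tendsto_exp_div_pow_atTop 1).comp (tendsto_id.atTop_div_const
      (show (0 : ℝ) < 2 by norm_num))
    filter_upwards [h.eventually_ge_atTop (80 * Lam ^ 2), eventually_gt_atTop (0 : ℝ)] with u h1 h2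
    simp only [Function.comp_apply, id, pow_one] at h1
    rw [le_div_iff₀ (by positivity)] at h1
    linarith
  obtain ⟨U0, hU0⟩ := hU1.exists_forall_of_atTop
  obtain ⟨U, hUa, hUb, hUc, hUd⟩ : ∃ U : ℝ, U0 ≤ U ∧ 20 * l ≤ U ∧ Real.log (max Y0 1) ≤ U ∧ 1 ≤ U :=
    ⟨max (max U0 (20 * l)) (max (Real.log (max Y0 1)) 1),
      (le_max_left _ _).trans (le_max_left _ _), (le_max_right _ _).trans (le_max_left _ _),
      (le_max_left _ _).trans (le_max_right _ _), (le_max_right _ _).trans (le_max_right _ _)⟩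
  have hU : 0 < U := by linarith
  -- choice of `K`
  obtain ⟨K, hK⟩ : ∃ K : ℕ, 1 ≤ ∑ k ∈ range K, 3 * LL 0 U k / 8 := by
    have h := (Real.tendsto_sum_range_one_div_nat_succ_atTop.eventually_ge_atTop
      (40 / 3 * (U + l))).exists
    obtain ⟨K, hK⟩ := h
    refine ⟨K, ?_⟩
    have h1 : ∀ k ∈ range K, 3 / (40 * (U + l)) * (1 / ((k : ℝ) + 1)) ≤ 3 * LL 0 U k / 8 := by
      intro k _
      unfold LL
      rw [neg_zero, zero_mul, Real.exp_zero, ← hl]
      have hk : (0 : ℝ) ≤ k := by positivity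
      have e1 : 3 * (1 / 5 * 1 / (U + (k + 1) * l)) / 8 = 3 / (40 * (U + (k + 1) * l)) := by
        field_simp
        norm_num
      rw [e1, div_mul_div_comm, mul_one]
      refine div_le_div_of_nonneg_left (by norm_num) (by positivity) ?_
      nlinarith [mul_nonneg hk hU.le]
    calc (1 : ℝ) = 3 / (40 * (U + l)) * (40 / 3 * (U + l)) := by field_simp
      _ ≤ 3 / (40 * (U + l)) * ∑ k ∈ range K, 1 / ((k : ℝ) + 1) := by gcongr
      _ = ∑ k ∈ range K, 3 / (40 * (U + l)) * (1 / ((k : ℝ) + 1)) := by rw [mul_sum]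
      _ ≤ _ := sum_le_sum h1
  -- choice of `ε`
  have hcont : Tendsto (fun ε : ℝ => ∑ k ∈ range K, 3 * LL ε U k / 8) (𝓝[>] 0)
      (𝓝 (∑ k ∈ range K, 3 * LL 0 U k / 8)) := by
    apply Tendsto.mono_left _ nhdsWithin_le_nhds
    apply Continuous.tendsto
    unfold LL
    fun_prop
  have e1 : ∀ᶠ ε : ℝ in 𝓝[>] 0, 3 / 4 ≤ ∑ k ∈ range K, 3 * LL ε U k / 8 :=
    hcont.eventually_const_le (by linarith)
  have e2 : ∀ᶠ ε : ℝ in 𝓝[>] 0, ε < min (1 / 2) (1 / (20 * l)) :=
    (eventually_lt_nhds (by positivity)).filter_mono nhdsWithin_le_nhds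
  have e3 : ∀ᶠ ε : ℝ in 𝓝[>] 0, 0 < ε := eventually_mem_nhdsWithin
  obtain ⟨ε, h3, h4, h5⟩ := (e1.and (e2.and e3)).exists
  have hε1 : ε < 1 / 2 := h4.trans_le (min_le_left _ _)
  have hε2 : ε * l < 1 / 20 := by
    have := h4.trans_le (min_le_right _ _)
    rw [lt_div_iff₀ (by positivity)] at this
    linarith
  refine ⟨ε, U, h5, hU, ?_, ?_, ?_, K, h3⟩
  · calc Y0 ≤ max Y0 1 := le_max_left _ _
      _ = Real.exp (Real.log (max Y0 1)) := (Real.exp_log (by positivity)).symm
      _ ≤ Real.exp U := Real.exp_le_exp.2 hUc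
  · intro k
    set u := U + (k + 1) * l with hu
    have hkl : 0 ≤ ((k : ℝ) + 1) * l := by positivity
    have hu0 : 0 < u := by linarith
    have hyk : yy U k = Real.exp u / Lam := by
      have := yy_succ U k
      have h6 : yy U (k + 1) = Real.exp u := by
        unfold yy
        rw [hu]
        push_cast
        rfl
      rw [h6] at this
      field_simp
      linarith
    have h7 : LL ε U k = 1 / 5 * Real.exp (-ε * u) / u := rfl
    rw [hyk, h7, div_div_eq_mul_div, div_le_div_iff₀ (Real.exp_pos _) hu0]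
    have h8 : 40 * Lam ^ 2 * u ≤ Real.exp (u / 2) := hU0 u (by linarith)
    have h9 : Real.exp (u / 2) ≤ Real.exp (-ε * u) * Real.exp u := by
      rw [← Real.exp_add]
      apply Real.exp_le_exp.2
      nlinarith
    nlinarith
  · intro k
    unfold LL
    rw [← hl]
    set u := U + (k + 1) * l with hu
    have hkl : 0 ≤ ((k : ℝ) + 1) * l := by positivity
    have hu0 : 0 < u := by linarith
    have hu20 : 20 * l ≤ u := by linarith
    have e4 : U + (((k + 1 : ℕ) : ℝ) + 1) * l = u + l := by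
      rw [hu]; push_cast; ring
    rw [e4]
    have h10 : Real.exp (-ε * (u + l)) = Real.exp (-ε * u) * Real.exp (-ε * l) := by
      rw [← Real.exp_add]; ring_nf
    have h11 : 19 / 20 ≤ Real.exp (-ε * l) := by
      have := Real.add_one_le_exp (-ε * l)
      linarith
    rw [h10]
    have hE : 0 < Real.exp (-ε * u) := Real.exp_pos _
    have h12 : 9 / 10 / u ≤ 19 / 20 / (u + l) := by
      rw [div_le_div_iff₀ hu0 (by linarith)]
      linarith
    calc 9 / 10 * (1 / 5 * Real.exp (-ε * u) / u) = 1 / 5 * Real.exp (-ε * u) * (9 / 10 / u) := by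
          ring
      _ ≤ 1 / 5 * Real.exp (-ε * u) * (19 / 20 / (u + l)) := by gcongr
      _ = 1 / 5 * Real.exp (-ε * u) / (u + l) * (19 / 20) := by ring
      _ ≤ 1 / 5 * Real.exp (-ε * u) / (u + l) * Real.exp (-ε * l) := by gcongr
      _ = 1 / 5 * (Real.exp (-ε * u) * Real.exp (-ε * l)) / (u + l) := by ring

end Q254.DC
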