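import Mathlib
import Pool.Agent.Q254.DC.Fill

/-! # There is a non-real `c` with `Re c < -1` and connected closure of the range of `σ_c` -/

set_option autoImplicit false

open Finset Filter Topology

namespace Q254.DC

/-- the conclusion of `supply` -/
def Sup (Y0 : ℝ) : Prop := ∀ ε : ℝ, 0 < ε → ∀ y : ℝ, Y0 ≤ y → ∀ u : ℂ,
    ‖u‖ = 1 → ∃ P : Finset ℕ, (∀ q ∈ P, q.Prime ∧ y < q ∧ (q : ℝ) ≤ Lam * y ∧
      Good u (vv (cc ε) q) ∧ ‖vv (cc ε) q‖ ≤ 3 / (2 * y)) ∧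
      1 / 5 * (Lam * y) ^ (-ε) / Real.log (Lam * y) ≤ ∑ q ∈ P, ‖vv (cc ε) q‖

lemma block_step {Y0 ε U : ℝ} (hs : Sup Y0) (hp : Param Y0 ε U) (k : ℕ) (w : ℂ) :
    ∃ S : Finset ℕ, (∀ q ∈ S, q.Prime ∧ yy U k < q ∧ (q : ℝ) ≤ yy U (k + 1)) ∧
      ‖w - ∑ q ∈ S, vv (cc ε) q‖ ≤ max (‖w‖ / 2 + LL ε U k / 8) (‖w‖ - 3 * LL ε U k / 8) := by
  obtain ⟨u, hu, hw⟩ : ∃ u : ℂ, ‖u‖ = 1 ∧ w = (‖w‖ : ℂ) * u := by
    by_cases h0 : w = 0
    · exact ⟨1, norm_one, by simp [h0]⟩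
    · have h1 : (‖w‖ : ℂ) ≠ 0 := by exact_mod_cast norm_ne_zero_iff.2 h0
      refine ⟨w / ‖w‖, ?_, by field_simp⟩
      rw [norm_div, Complex.norm_real, norm_norm, div_self (norm_ne_zero_iff.2 h0)]
  have hy : Y0 ≤ yy U k := by
    refine hp.hY.trans ?_
    have := yy_mono U (Nat.zero_le k)
    simpa [yy] using this
  obtain ⟨P, hP, htot⟩ := hs ε hp.ε_pos (yy U k) hy u hu
  have hL := LL_pos (ε := ε) hp.U_pos k
  have hyp := yy_pos U k
  have hl : 3 / (2 * yy U k) ≤ LL ε U k / 4 := by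
    have h1 := hp.h1 k
    have h2 : 6 / yy U k ≤ 8 * Lam / yy U k := by
      gcongr
      linarith [Lam_ge]
    have h3 : 3 / (2 * yy U k) = 6 / yy U k / 4 := by
      field_simp
      norm_num
    rw [h3]
    linarith
  rw [← LL_eq] at htot
  obtain ⟨S, hS, h⟩ := one_step (vv (cc ε)) P (LL ε U k) (3 / (2 * yy U k)) hL (by positivity) hl w u
    hu hw (fun q hq => (hP q hq).2.2.2.1) (fun q hq => (hP q hq).2.2.2.2) htot
  refine ⟨S, fun q hq => ⟨(hP q (hS hq)).1, (hP q (hS hq)).2.1, ?_⟩, h⟩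
  rw [yy_succ]
  exact (hP q (hS hq)).2.2.1

/-- a finite set of primes in `(a, b]` whose vectors sum to `w` up to `e` -/
def Rep (ε a b : ℝ) (w : ℂ) (e : ℝ) : Prop :=
  ∃ S : Finset ℕ, (∀ q ∈ S, q.Prime ∧ a < q ∧ (q : ℝ) ≤ b) ∧ ‖w - ∑ q ∈ S, vv (cc ε) q‖ ≤ e

lemma Rep.extend {ε a b b' : ℝ} {w : ℂ} {S : Finset ℕ}
    (hab : a ≤ b) (hbb : b ≤ b') (hS : ∀ q ∈ S, q.Prime ∧ a < q ∧ (q : ℝ) ≤ b) {e' : ℝ}
    (h2 : Rep ε b b' (w - ∑ q ∈ S, vv (cc ε) q) e') : Rep ε a b' w e' := by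
  obtain ⟨T, hT, h⟩ := h2
  refine ⟨S ∪ T, ?_, ?_⟩
  · intro q hq
    rcases mem_union.1 hq with h1 | h1
    · exact ⟨(hS q h1).1, (hS q h1).2.1, (hS q h1).2.2.trans hbb⟩
    · exact ⟨(hT q h1).1, hab.trans_lt (hT q h1).2.1, (hT q h1).2.2⟩
  · have hd : Disjoint S T := by
      rw [Finset.disjoint_left]
      intro q h1 h2
      have := (hS q h1).2.2
      have := (hT q h2).2.1
      linarith
    rw [sum_union hd]
    have e1 : w - (∑ q ∈ S, vv (cc ε) q + ∑ q ∈ T, vv (cc ε) q) =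
        w - ∑ q ∈ S, vv (cc ε) q - ∑ q ∈ T, vv (cc ε) q := by ring
    rw [e1]
    exact h

lemma iter2 {Y0 ε U : ℝ} (hs : Sup Y0) (hp : Param Y0 ε U) (k0 : ℕ) (w : ℂ)
    (hw : ‖w‖ ≤ LL ε U k0) (j : ℕ) : Rep ε (yy U k0) (yy U (k0 + j)) w (LL ε U (k0 + j)) := by
  induction j with
  | zero => exact ⟨∅, by simp, by simpa using hw⟩
  | succ j ih =>
    obtain ⟨S, hS, h⟩ := ih
    obtain ⟨T, hT, h2⟩ := block_step hs hp (k0 + j) (w - ∑ q ∈ S, vv (cc ε) q)
    refine Rep.extend (yy_mono U (Nat.le_add_right _ _)) (yy_mono U (by omega)) hS ⟨T, hT, h2.trans ?_⟩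
    have hL := LL_pos (ε := ε) hp.U_pos (k0 + j)
    have h3 := hp.h2 (k0 + j)
    have e1 : k0 + (j + 1) = k0 + j + 1 := by ring
    rw [e1]
    apply max_le <;> linarith

lemma iter1 {Y0 ε U : ℝ} (hs : Sup Y0) (hp : Param Y0 ε U) (w : ℂ)
    (hw : ‖w‖ ≤ 3 / 4) (j : ℕ) :
    Rep ε (yy U 0) (yy U j) w
      (max (LL ε U j) (3 / 4 - ∑ k ∈ range j, 3 * LL ε U k / 8)) := by
  induction j with
  | zero => exact ⟨∅, by simp, by simpa using Or.inr hw⟩
  | succ j ih =>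
    obtain ⟨S, hS, h⟩ := ih
    obtain ⟨T, hT, h2⟩ := block_step hs hp j (w - ∑ q ∈ S, vv (cc ε) q)
    refine Rep.extend (yy_mono U (Nat.zero_le _)) (yy_mono U (by omega)) hS ⟨T, hT, h2.trans ?_⟩
    have hL := LL_pos (ε := ε) hp.U_pos j
    have h3 := hp.h2 j
    rw [sum_range_succ]
    set e := ‖w - ∑ q ∈ S, vv (cc ε) q‖ with he
    rcases le_or_gt e (LL ε U j) with h4 | h4
    · refine le_max_of_le_left ?_
      apply max_le <;> linarith
    · have h5 : e ≤ 3 / 4 - ∑ k ∈ range j, 3 * LL ε U k / 8 := by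
        rcases le_max_iff.1 h with h6 | h6
        · linarith
        · exact h6
      refine le_max_of_le_right ?_
      apply max_le <;> linarith

lemma LL_tendsto {ε U : ℝ} (hε : 0 < ε) (hU : 0 < U) : Tendsto (LL ε U) atTop (𝓝 0) := by
  have hl := logLam_pos
  have h1 : Tendsto (fun k : ℕ => U + ((k : ℝ) + 1) * Real.log Lam) atTop atTop := by
    apply tendsto_atTop_add_const_left
    apply Tendsto.atTop_mul_const hl
    exact tendsto_atTop_add_const_right _ _ tendsto_natCast_atTop_atTop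
  have h2 : Tendsto (fun k : ℕ => 1 / 5 * (U + ((k : ℝ) + 1) * Real.log Lam)⁻¹) atTop (𝓝 0) := by
    have := (tendsto_inv_atTop_zero.comp h1).const_mul (1 / 5 : ℝ)
    simpa using this
  refine squeeze_zero (fun k => (LL_pos hU k).le) (fun k => ?_) h2
  unfold LL
  have hu : 0 < U + ((k : ℝ) + 1) * Real.log Lam := by positivity
  rw [div_eq_mul_inv]
  gcongr
  have : Real.exp (-ε * (U + ((k : ℝ) + 1) * Real.log Lam)) ≤ 1 := by
    apply Real.exp_le_one_iff.2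
    nlinarith
  linarith

lemma rep_all {Y0 ε U : ℝ} (hs : Sup Y0) (hp : Param Y0 ε U) (p : ℕ) (hpp : p.Prime) (w : ℂ)
    (hw : ‖w‖ ≤ 3 / (2 * p)) (η : ℝ) (hη : 0 < η) : ∃ b : ℝ, Rep ε p b w η := by
  have hL0 := (LL_tendsto hp.ε_pos hp.U_pos).eventually_lt_const hη
  obtain ⟨J, hJ⟩ := hL0.exists_forall_of_atTop
  -- reduction to a start `k` with small norm
  have key : ∃ k : ℕ, (p : ℝ) ≤ yy U k ∧ Rep ε p (yy U k) w (LL ε U k) := by
    rcases le_or_gt (p : ℝ) (yy U 0) with h0 | h0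
    · obtain ⟨K, hK⟩ := hp.h3
      have hw' : ‖w‖ ≤ 3 / 4 := by
        refine hw.trans ?_
        have hp2 : (2 : ℝ) ≤ p := by exact_mod_cast hpp.two_le
        rw [div_le_div_iff₀ (by positivity) (by norm_num)]
        linarith
      obtain ⟨S, hS, h⟩ := iter1 hs hp w hw' K
      refine ⟨K, h0.trans (yy_mono U (Nat.zero_le _)), S, fun q hq => ⟨(hS q hq).1, h0.trans_lt (hS q hq).2.1, (hS q hq).2.2⟩, ?_⟩
      have hL := LL_pos (ε := ε) hp.U_pos K
      rw [max_eq_left (by linarith)] at h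
      exact h
    · have hex : ∃ k : ℕ, (p : ℝ) ≤ yy U k := by
        have h1 : Tendsto (fun k : ℕ => yy U k) atTop atTop := by
          unfold yy
          apply Real.tendsto_exp_atTop.comp
          apply tendsto_atTop_add_const_left
          exact tendsto_natCast_atTop_atTop.atTop_mul_const logLam_pos
        exact (h1.eventually_ge_atTop (p : ℝ)).exists
      classical
      obtain ⟨k, hk⟩ : ∃ k, Nat.find hex = k + 1 := by
        refine Nat.exists_eq_succ_of_ne_zero ?_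
        intro h
        have := Nat.find_spec hex
        rw [h] at this
        linarith
      have h1 : (p : ℝ) ≤ yy U (k + 1) := hk ▸ Nat.find_spec hex
      have h2 : yy U k < p := by
        have := Nat.find_min hex (m := k) (by omega)
        exact not_le.1 this
      have h3 : ‖w‖ ≤ LL ε U (k + 1) := by
        refine hw.trans ((?_ : 3 / (2 * (p : ℝ)) ≤ 8 * Lam / yy U (k + 1)).trans (hp.h1 (k + 1)))
        rw [yy_succ]
        have hy := yy_pos U k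
        have hLam := Lam_pos
        have hp0 : (0 : ℝ) < p := by linarith
        rw [div_le_div_iff₀ (by positivity) (by positivity)]
        nlinarith [mul_pos hLam hy, mul_pos hLam hp0, mul_lt_mul_of_pos_left h2 hLam]
      exact ⟨k + 1, h1, ∅, by simp, by simpa using h3⟩
  obtain ⟨k, h3, S, hS, h⟩ := key
  have h2 := iter2 hs hp k (w - ∑ q ∈ S, vv (cc ε) q) h J
  refine ⟨yy U (k + J), ?_⟩
  obtain ⟨T, hT⟩ := Rep.extend h3 (yy_mono U (Nat.le_add_right _ _)) hS h2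
  exact ⟨T, hT.1, hT.2.trans (hJ _ (by omega)).le⟩

theorem fill {Y0 ε U : ℝ} (hs : Sup Y0) (hp : Param Y0 ε U) : Fill (cc ε) := by
  intro p hpp w hw η hη
  obtain ⟨δ, hδ, hδ2⟩ := Metric.continuous_iff.1 Complex.continuous_exp w η hη
  obtain ⟨b, S, hS, h⟩ := rep_all hs hp p hpp w hw (δ / 2) (by positivity)
  refine ⟨∏ q ∈ S, q, prod_pos fun q hq => (hS q hq).1.pos, ?_, ?_⟩
  · intro q hq hd
    obtain ⟨x, hx, hqx⟩ := (Nat.Prime.prime hq).exists_mem_finset_dvd hd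
    have := (Nat.prime_dvd_prime_iff_eq hq (hS x hx).1).1 hqx
    rw [this]
    exact_mod_cast (hS x hx).2.1
  · rw [sig_prod]
    · have h1 := hδ2 (∑ q ∈ S, vv (cc ε) q) (by rw [dist_comm, dist_eq_norm]; linarith)
      rw [← dist_eq_norm]
      exact h1
    · exact fun q hq => (hS q hq).1
    · intro q hq h0
      have hq := (hS q hq).1
      have h1 := norm_cpow_le ε hp.ε_pos q hq.pos
      have h2 : (q : ℂ) ^ cc ε = -1 := by linear_combination h0
      rw [h2, norm_neg, norm_one] at h1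
      have hq2 : (2 : ℝ) ≤ q := by exact_mod_cast hq.two_le
      rw [le_div_iff₀ (by linarith)] at h1
      linarith

theorem main : ∃ c : ℂ, c.im ≠ 0 ∧ c.re < -1 ∧
    IsConnected (closure (Set.range (fun n : ℕ+ => sig c n))) := by
  obtain ⟨Y0, -, hs⟩ := supply
  obtain ⟨ε, U, hp⟩ := exists_param Y0
  have hre : (cc ε).re < -1 := by
    show -(1 + ε) < -1
    linarith [hp.ε_pos]
  exact ⟨cc ε, tt_pos.ne', hre, connected_of_fill hre (fill hs hp)⟩

end Q254.DC
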